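import Mathlib
import Pool.Agent.H25.Vis.Defs
import Pool.Agent.H25.Vis.Ray
import Pool.Agent.H25.Vis.NotVis

/-!
# A bounded convex domain which is not visible but all of whose geodesic rays land

The domain `Ω = {(q, w) ∈ ℂ² : |w| < 1, |q|² < (1 - |w|²) Re q}` is a bounded convex domain which is
not visible, it has geodesic rays, and every geodesic ray of it lands. This answers
affirmatively Q1 of `MP_4f7452_an`. All definitions used in the statement are in
`Pool/Agent/H25/Vis/Defs.lean`.

Idea of the proof. With `V = 1 / q` the domain is the tube-like domain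
`{Re V > c(w) = 1 / (1 - |w|²), |w| < 1}`, and its boundary contains the flat part `{q = 0}`.

* Not visible: each slice `{V = X}`, `X ≥ 2`, is a complex geodesic (a left inverse is
  `(V, w) ↦ 2 r w / (1 - 2/X + V/X² + r²)`, `r² = 1 - 1/X`), so the segments from
  `(1/(k+2), 0)` to `(1/(k+2), 1/2)` are geodesic segments which leave every compact set.
* Rays land: let `T(t) = k(γ 0, γ t)`. If `|q(t)|²` is once large compared with
  `exp (-T)`, then steps of unit Kobayashi length have exponentially small Euclidean length.
  Otherwise `q → 0` exponentially. If `1 - |w|²` is eventually at most `exp (-T/16)`, then `w`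
  converges. In the remaining case there are times `t_k → ∞` with
  `1 - |w|² > exp (-T/16)`; comparison with product domains `{Re V > A} × {|w| < ρ}` from inside
  and with the half spaces `Re (V - h_a(w)) > c(a)` supporting the domain at `(c(a), a)` from
  outside gives that `X̃ = Re V - c(w)` satisfies `X̃(t) ≥ X̃(0) exp (2 T(t))`, and then the half space
  with `a = w(0)` forces `w` to be constant, so that `γ` lands at `(0, w(0))`.
-/

namespace Pool.Agent.Results.MP_4f7452_an.LandingNotVisible

open Pool.Agent.H25.Vis

/-- The bounded convex domain `{(q, w) ∈ ℂ² : |w| < 1, |q|² < (1 - |w|²) Re q}` is not visible, it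
has a geodesic ray, and each of its geodesic rays lands. -/
theorem result : BoundedConvexDomain dom ∧ ¬ Visible dom ∧
    (∃ γ : ℝ → EuclideanSpace ℂ (Fin 2), IsGeodesicRay dom γ) ∧
    ∀ γ : ℝ → EuclideanSpace ℂ (Fin 2), IsGeodesicRay dom γ → Lands γ :=
  ⟨boundedConvexDomain_dom, not_visible_dom, ⟨ray, isGeodesicRay_ray⟩, fun _ h => lands_dom h⟩

end Pool.Agent.Results.MP_4f7452_an.LandingNotVisible
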